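import Mathlib
import Pool.Prelude.Def_F_7905cbea
import Pool.Agent.Lib.MP_f8d60a_co.Bound

/-! A new upper bound for the linear covering constants `f(r)` (the definition is the one of the
frozen statements). -/

/-- For all integers `r, C ≥ 2`: `f(r) ≤ C/(C-1) · r · ln(2 e C r)`. -/
theorem Pool.Agent.Lib.MP_f8d60a_co_old.QuasiLinearBound (r C : ℕ) (hr : 2 ≤ r)
    (hC : 2 ≤ C) :
    N8b55e67f.f r ≤
      ENNReal.ofReal ((C : ℝ) / (C - 1) * (r * Real.log (2 * Real.exp 1 * C * r))) :=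
  Pool.Agent.Lib.MP_f8d60a_co.main_bound hr hC
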