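import Mathlib
import Pool.Prelude.Def_F_7905cbea
import Pool.Agent.Lib.MP_f8d60a_co.OneFinal

/-! The linear covering constant for radius two (the definition of `f` is the one of the frozen
statements). -/

/-- `f(2) = 1` -/
theorem Pool.Agent.Lib.MP_f8d60a_co_old.RadiusTwoExact : N8b55e67f.f 2 = 1 :=
  Pool.Agent.Lib.MP_f8d60a_co.One.f_two
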