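import Mathlib
import Pool.Prelude.Def_F_7905cbea
import Pool.Agent.Lib.MP_f8d60a_co.SmallFinal

/-! Upper bounds for the linear covering constants `f(r)`, `r ≥ 3` (the definition is the one of
the frozen statements). -/

/-- For all `r ≥ 3`: `f(r) ≤ r ^ r / (r! 2 ^ ⌊2 r / 3⌋)`; for `r = 3` this is `9 / 8`. -/
theorem Pool.Agent.Lib.MP_f8d60a_co_old.SmallRadius (r : ℕ) (hr : 3 ≤ r) :
    N8b55e67f.f r ≤ ENNReal.ofReal ((r : ℝ) ^ r / (r.factorial * 2 ^ (2 * r / 3))) :=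
  Pool.Agent.Lib.MP_f8d60a_co.Small.small_bound (le_trans (by norm_num) hr)
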